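import Pool.Agent.H85.LK.Targets

/-! PLR: polar coordinates. -/

set_option autoImplicit false

open MeasureTheory Metric Set
open scoped ENNReal
open Pool.Agent.H85.LK

namespace Pool.Agent.H66.LK

theorem pf_PLR : T_PLR := by
  intro N hN f hf
  haveI : Nonempty (Fin N) := ⟨⟨0, hN⟩⟩
  have hdim : Module.finrank ℝ (E N) = N := finrank_euclideanSpace_fin
  have hMP := (volume : Measure (E N)).measurePreserving_homeomorphUnitSphereProd
  rw [hdim] at hMP
  have h0 : MeasurableSet ({0}ᶜ : Set (E N)) := (measurableSet_singleton _).compl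
  have hm : Measurable fun p : sphere (0 : E N) 1 × Ioi (0 : ℝ) => f ((p.2 : ℝ) • (p.1 : E N)) :=
    hf.comp ((measurable_subtype_coe.comp measurable_snd).smul
      (measurable_subtype_coe.comp measurable_fst))
  calc ∫⁻ x, f x = ∫⁻ x : ({0}ᶜ : Set (E N)), f x ∂((volume : Measure (E N)).comap (↑)) := by
        rw [lintegral_subtype_comap h0, restrict_compl_singleton]
    _ = ∫⁻ p : sphere (0 : E N) 1 × Ioi (0 : ℝ), f ((p.2 : ℝ) • (p.1 : E N))
          ∂((volume : Measure (E N)).toSphere.prod (Measure.volumeIoiPow (N - 1))) := by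
        rw [← hMP.lintegral_comp_emb (Homeomorph.measurableEmbedding _)]
        refine lintegral_congr fun x => ?_
        have h1 : (((homeomorphUnitSphereProd (E N) x).2 : Ioi (0 : ℝ)) : ℝ) •
            (((homeomorphUnitSphereProd (E N) x).1 : sphere (0 : E N) 1) : E N) = x := by
          have h2 := homeomorphUnitSphereProd_symm_apply_coe (E N) (homeomorphUnitSphereProd (E N) x)
          rw [Homeomorph.symm_apply_apply] at h2
          exact h2.symm
        rw [h1]
    _ = ∫⁻ θ : sphere (0 : E N) 1, ∫⁻ t : Ioi (0 : ℝ), f ((t : ℝ) • (θ : E N))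
          ∂(Measure.volumeIoiPow (N - 1)) ∂((volume : Measure (E N)).toSphere) :=
        lintegral_prod _ hm.aemeasurable
    _ = _ := by
        refine lintegral_congr fun θ => ?_
        have hm2 : Measurable fun t : Ioi (0 : ℝ) => f ((t : ℝ) • (θ : E N)) :=
          hf.comp (measurable_subtype_coe.smul_const _)
        have hd : Measurable fun t : Ioi (0 : ℝ) => ENNReal.ofReal ((t : ℝ) ^ (N - 1)) :=
          (measurable_subtype_coe.pow_const _).ennreal_ofReal
        unfold Measure.volumeIoiPow
        rw [lintegral_withDensity_eq_lintegral_mul _ hd hm2]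
        exact lintegral_subtype_comap measurableSet_Ioi
          (fun t : ℝ => ENNReal.ofReal (t ^ (N - 1)) * f (t • (θ : E N)))

end Pool.Agent.H66.LK
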